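import Mathlib
import Pool.Agent.H791Z.Ham.Main

namespace Pool.Agent.Results.MP_82e03f_pr.GammaOne

open Pool.Agent.H791Z.Ham

/-- For every `d ≥ 3` the critical density of polluted transitive closure on the Hamming graph
`[n]^d` is `n ^ (-1 + o(1))`: the exponent is `γ(d) = 1`. -/
theorem result (d : ℕ) (hd : 3 ≤ d) (ε : ℝ) (hε : 0 < ε) :
    ∃ N : ℕ, ∀ n ≥ N, (n : ℝ) ^ (-1 - ε) ≤ pc d n ∧ pc d n ≤ (n : ℝ) ^ (-1 + ε) :=
  main d hd ε hε

end Pool.Agent.Results.MP_82e03f_pr.GammaOne
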